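import Mathlib
import Pool.Agent.H.MP_59b15d_al.h95.Fd10

set_option autoImplicit false

namespace Pool.MP_59b15d_al.H73S

open Pool.MP_59b15d_al.H24T Pool.MP_59b15d_al.H76R Pool.MP_59b15d_al.H73E Pool.MP_59b15d_al.H95
open Pool.MP_59b15d_al.H76 (InnMod congSub mem_congSub congSub_normal congSub_finiteIndex
  conj_innMod innMod_mono apply_mem_of_char exists_char_le comap_fi map_fi surf_fg inf_char
  finite_hom trivMod mem_trivMod trivMod_normal trivMod_finiteIndex)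
open FreeGroup (of)

section

variable {n : ℕ} {G : Type*} [Group G] {a b : Fin (n + 1) → G} {P : Type*} [Group P]
  {x y : Fin n → P}

/-- Commutation with the automorphisms `conj w * Xh h s` fixing the boundary. -/
theorem CmA (hn : 0 < n) (h : IsSurf a b) (hP : IsSurf x y) (U : Subgroup (Fr n))
    (hU : U.Characteristic) (hf : U.FiniteIndex) :
    ∃ Γ : Subgroup P, Γ.Characteristic ∧ Γ.FiniteIndex ∧ ∀ f : MulAut (Fr n),
      f (dl n) = dl n →
      (∀ z, qH x y (f z * z⁻¹) ∈ Γ) →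
      ∀ s ∈ commutator (Fr n), ∀ w : Fr n, (MulAut.conj w * Xh h s) (dl n) = dl n →
        ∀ z, f ((MulAut.conj w * Xh h s) z) * ((MulAut.conj w * Xh h s) (f z))⁻¹ ∈ U := by
  have hPfg : Group.FG P := surf_fg hP
  obtain ⟨V, hVc, hVf, hVU, hV⟩ := CL hn U inferInstance hf
  have hVn : V.Normal := inferInstance
  have hUn : U.Normal := inferInstance
  let U₁ : Subgroup (Fr n) := (trivMod V).comap (Xh h)
  have hU₁ : U₁.FiniteIndex := comap_fi _ (trivMod_finiteIndex hVc hVf)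
  obtain ⟨Γ, hΓc, hΓf, hΓ⟩ := exists_char_le (U₁.map (qH x y)) (map_fi _ (qH_surj hP) hU₁)
  refine ⟨Γ, hΓc, hΓf, ?_⟩
  intro f hfc hfΓ
  have hTn : (trivMod U).Normal := trivMod_normal hU
  let ψ : MulAut (Fr n) →* MulAut (Fr n) ⧸ trivMod U := QuotientGroup.mk' _
  have hψ : ∀ ξ, ψ ξ = 1 ↔ ξ ∈ trivMod U := fun ξ => QuotientGroup.eq_one_iff ξ
  let C : MulAut (Fr n) := MulAut.conj (dl n)
  have hCf : Commute (ψ f) (ψ C) := by
    have h1 : f * C = C * f := by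
      change f * MulAut.conj (dl n) = MulAut.conj (dl n) * f
      rw [Cm_conj', hfc]
    change ψ f * ψ C = ψ C * ψ f
    rw [← map_mul, ← map_mul, h1]
  have hCS : ∀ ξ ∈ Cm_S h, Commute (ψ ξ) (ψ C) := by
    intro ξ hξ
    have h1 : ξ * C = C * ξ := by
      change ξ * MulAut.conj (dl n) = MulAut.conj (dl n) * ξ
      rw [Cm_conj', hξ.2]
    change ψ ξ * ψ C = ψ C * ψ ξ
    rw [← map_mul, ← map_mul, h1]
  -- inner automorphisms by elements close to the powers of the boundary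
  have hinn : ∀ t : Fr n, t * dl n * t⁻¹ * (dl n)⁻¹ ∈ V → ∃ k : ℤ, ψ (MulAut.conj t) = ψ C ^ k := by
    intro t ht
    obtain ⟨k, hk⟩ := hV t ht
    refine ⟨-k, ?_⟩
    have h1 : ψ (MulAut.conj (t * dl n ^ k)) = 1 := by
      rw [hψ, mem_trivMod]
      intro z
      rw [MulAut.conj_apply]
      have h2 := hUn.conj_mem _ (U.inv_mem hk) z
      have h3 := U.mul_mem hk h2
      have h4 : t * dl n ^ k * (z * (t * dl n ^ k)⁻¹ * z⁻¹) =
        t * dl n ^ k * z * (t * dl n ^ k)⁻¹ * z⁻¹ := by group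
      rwa [h4] at h3
    rw [map_mul, map_mul, map_zpow, map_zpow] at h1
    rw [zpow_neg]
    exact eq_inv_of_mul_eq_one_left h1
  -- conjugation by `f`
  have hmain : ∀ ξ ∈ Cm_S h, ∃ k : ℤ, ψ f * ψ ξ * (ψ f)⁻¹ = ψ C ^ k * ψ ξ := by
    rintro ξ ⟨⟨w, u, rfl⟩, hξc⟩
    obtain ⟨u', hu', hu'2⟩ := hΓ (hfΓ u)
    have hj : qH x y (f u * u⁻¹ * u'⁻¹) = 1 := by
      rw [map_mul, map_inv (qH x y) u', hu'2, mul_inv_cancel]
    obtain ⟨v₀, hv⟩ := Cm_inn h (qH_ker hP hj)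
    obtain ⟨w₁, hw₁⟩ := Xh_all h hfc u
    let v : Fr n := w₁ * v₀
    have h1 : f * Xh h u * f⁻¹ = MulAut.conj v * Xh h u' * Xh h u := by
      have h0 : Xh h (f u) = MulAut.conj v₀ * Xh h u' * Xh h u := by
        rw [← hv, ← map_mul, ← map_mul]
        congr 1
        group
      rw [hw₁, h0]
      change _ = MulAut.conj (w₁ * v₀) * Xh h u' * Xh h u
      rw [map_mul]
      group
    have h2 : ψ (Xh h u') = 1 := by
      rw [hψ, mem_trivMod]
      exact fun z => hVU (hu' z)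
    have h3 : f * (MulAut.conj w * Xh h u) * f⁻¹ =
        MulAut.conj (f w) * (MulAut.conj v * Xh h u' * Xh h u) := by
      rw [← h1, ← Cm_conj]
      group
    -- the element `t`
    let y₀ : Fr n := Xh h u (dl n)
    have hy₀ : w * y₀ * w⁻¹ = dl n := by
      rw [MulAut.mul_apply, MulAut.conj_apply] at hξc
      exact hξc
    have hfc' : f⁻¹ (dl n) = dl n := inv_fix hfc
    have h4 : f w * (v * Xh h u' y₀ * v⁻¹) * (f w)⁻¹ = dl n := by
      have h5 : (f * (MulAut.conj w * Xh h u) * f⁻¹) (dl n) = dl n := by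
        rw [MulAut.mul_apply, MulAut.mul_apply, hfc', hξc, hfc]
      rw [h3] at h5
      simpa only [MulAut.mul_apply, MulAut.conj_apply] using h5
    have h5 : f w * v * w⁻¹ * dl n * (f w * v * w⁻¹)⁻¹ * (dl n)⁻¹ =
        (f w * v) * (Xh h u' y₀ * y₀⁻¹)⁻¹ * (f w * v)⁻¹ := by
      nth_rewrite 2 [← h4]
      rw [← hy₀]
      group
    have h6 : f w * v * w⁻¹ * dl n * (f w * v * w⁻¹)⁻¹ * (dl n)⁻¹ ∈ V := by
      rw [h5]
      exact hVn.conj_mem _ (V.inv_mem (hu' y₀)) _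
    obtain ⟨k, hk⟩ := hinn _ h6
    refine ⟨k, ?_⟩
    rw [← hk, ← map_mul, ← map_inv, ← map_mul, h3]
    simp only [map_mul, h2, map_inv]
    group
  -- commutators
  have hcomm : ∀ ξ ∈ Cm_S h, ∀ η ∈ Cm_S h, Commute (ψ f) (ψ (ξ * η * ξ⁻¹ * η⁻¹)) := by
    intro ξ hξ η hη
    obtain ⟨k, hk⟩ := hmain ξ hξ
    obtain ⟨l, hl⟩ := hmain η hη
    have h1 : ψ f * ψ (ξ * η * ξ⁻¹ * η⁻¹) * (ψ f)⁻¹ =
        (ψ f * ψ ξ * (ψ f)⁻¹) * (ψ f * ψ η * (ψ f)⁻¹) * (ψ f * ψ ξ * (ψ f)⁻¹)⁻¹ *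
          (ψ f * ψ η * (ψ f)⁻¹)⁻¹ := by
      simp only [map_mul, map_inv]
      group
    have h2 := Cm_alg (((hCS ξ hξ).zpow_right k).symm) (((hCS η hη).zpow_right k).symm)
      (((hCS ξ hξ).zpow_right l).symm) (((hCS η hη).zpow_right l).symm)
      ((Commute.refl (ψ C)).zpow_zpow k l)
    have h3 : ψ f * ψ (ξ * η * ξ⁻¹ * η⁻¹) * (ψ f)⁻¹ = ψ (ξ * η * ξ⁻¹ * η⁻¹) := by
      rw [h1, hk, hl, h2]
      simp only [map_mul, map_inv]
    exact mul_inv_eq_iff_eq_mul.mp h3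
  have hinn2 : ∀ v, MulAut.conj v ∈ Cm_S h → Commute (ψ f) (ψ (MulAut.conj v)) := by
    intro v hv
    have h1 : v * dl n * v⁻¹ = dl n := hv.2
    obtain ⟨k, hk⟩ := hinn v (by rw [h1, mul_inv_cancel]; exact V.one_mem)
    rw [hk]
    exact hCf.zpow_right k
  have hratio : ∀ s w w', MulAut.conj w * Xh h s ∈ Cm_S h → MulAut.conj w' * Xh h s ∈ Cm_S h →
      Commute (ψ f) (ψ (MulAut.conj w' * Xh h s)) → Commute (ψ f) (ψ (MulAut.conj w * Xh h s)) := by
    intro s w w' h1 h2 h3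
    have h4 : MulAut.conj w * Xh h s = MulAut.conj (w * w'⁻¹) * (MulAut.conj w' * Xh h s) := by
      rw [map_mul, map_inv]; group
    have h5 : MulAut.conj (w * w'⁻¹) ∈ Cm_S h := by
      have h6 := (Cm_S h).mul_mem h1 ((Cm_S h).inv_mem h2)
      rw [h4, mul_inv_cancel_right] at h6
      exact h6
    rw [h4, map_mul]
    exact (hinn2 _ h5).mul_right h3
  have hall : ∀ s ∈ commutator (Fr n), ∀ w, MulAut.conj w * Xh h s ∈ Cm_S h →
      Commute (ψ f) (ψ (MulAut.conj w * Xh h s)) := by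
    intro s hs
    rw [commutator_eq_closure] at hs
    induction hs using Subgroup.closure_induction with
    | mem s hs =>
      obtain ⟨p, q, rfl⟩ := hs
      intro w hw
      obtain ⟨w₁, h1⟩ := Cm_lift h p
      obtain ⟨w₂, h2⟩ := Cm_lift h q
      have h3 := hcomm _ h1 _ h2
      have h4 := (Cm_S h).mul_mem ((Cm_S h).mul_mem ((Cm_S h).mul_mem h1 h2)
        ((Cm_S h).inv_mem h1)) ((Cm_S h).inv_mem h2)
      obtain ⟨w', h5⟩ : ∃ w', MulAut.conj w₁ * Xh h p * (MulAut.conj w₂ * Xh h q) *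
          (MulAut.conj w₁ * Xh h p)⁻¹ * (MulAut.conj w₂ * Xh h q)⁻¹ =
          MulAut.conj w' * Xh h (p * q * p⁻¹ * q⁻¹) := by
        refine ⟨w₁ * Xh h p w₂ * (Xh h (p * q * p⁻¹) w₁)⁻¹ * (Xh h (p * q * p⁻¹ * q⁻¹) w₂)⁻¹, ?_⟩
        exact Cm_comm h p q w₁ w₂
      rw [h5] at h3 h4
      exact hratio _ _ _ hw h4 h3
    | one =>
      intro w hw
      rw [map_one, mul_one] at hw ⊢
      exact hinn2 w hw
    | mul s t _ _ ihs iht =>
      intro w hw
      obtain ⟨w₁, h1⟩ := Cm_lift h s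
      obtain ⟨w₂, h2⟩ := Cm_lift h t
      have h3 := (ihs _ h1).mul_right (iht _ h2)
      have h4 := (Cm_S h).mul_mem h1 h2
      have h5 : MulAut.conj w₁ * Xh h s * (MulAut.conj w₂ * Xh h t) =
          MulAut.conj (w₁ * Xh h s w₂) * Xh h (s * t) := by
        rw [map_mul, map_mul, ← Cm_conj]
        group
      rw [← map_mul, h5] at h3
      rw [h5] at h4
      exact hratio _ _ _ hw h4 h3
    | inv s _ ihs =>
      intro w hw
      have h1 := (Cm_S h).inv_mem hw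
      have h2 : (MulAut.conj w * Xh h s⁻¹)⁻¹ = MulAut.conj (Xh h s w⁻¹) * Xh h s := by
        rw [← Cm_conj', mul_inv_rev, map_inv, map_inv, inv_inv]
      rw [h2] at h1
      have h3 := ihs _ h1
      rw [← h2, map_inv] at h3
      have h4 := h3.inv_right
      rwa [inv_inv] at h4
  intro s hs w hw z
  have h1 := hall s hs w ⟨⟨w, s, rfl⟩, hw⟩
  have h2 : f * (MulAut.conj w * Xh h s) * ((MulAut.conj w * Xh h s) * f)⁻¹ ∈ trivMod U := by
    have h3 : ψ (f * (MulAut.conj w * Xh h s)) = ψ ((MulAut.conj w * Xh h s) * f) := by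
      rw [map_mul ψ f, map_mul ψ (MulAut.conj w * Xh h s) f, h1.eq]
    rw [← hψ, map_mul ψ (f * _), map_inv, h3, mul_inv_cancel]
  have h3 := mem_trivMod.mp h2 (((MulAut.conj w * Xh h s) * f) z)
  rw [MulAut.mul_apply, MulAut.inv_apply_self, MulAut.mul_apply] at h3
  exact h3

end

end Pool.MP_59b15d_al.H73S
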