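import Mathlib
import Pool.Agent.H.MP_59b15d_al.h73e.Cp1
import Pool.Agent.H.MP_59b15d_al.h73s.CmA

set_option autoImplicit false

namespace Pool.MP_59b15d_al.H73S

open Pool.MP_59b15d_al.H24T Pool.MP_59b15d_al.H76R Pool.MP_59b15d_al.H73E Pool.MP_59b15d_al.H95
open Pool.MP_59b15d_al.H76 (InnMod congSub mem_congSub congSub_normal congSub_finiteIndex
  conj_innMod innMod_mono apply_mem_of_char exists_char_le comap_fi map_fi surf_fg inf_char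
  finite_hom)
open FreeGroup (of)

section

variable {n : ℕ} {G : Type*} [Group G] {a b : Fin (n + 1) → G} {P : Type*} [Group P]
  {x y : Fin n → P}

/-- The image of the boundary of the first handle. -/
theorem Cp1A (hn : 3 ≤ n) (h : IsSurf a b) (hP : IsSurf x y) (U : Subgroup (Fr n))
    (hU : U.Characteristic) (hf : U.FiniteIndex) :
    ∃ Γ : Subgroup P, Γ.Characteristic ∧ Γ.FiniteIndex ∧ ∀ f : MulAut (Fr n),
      f (dl n) = dl n →
      (∀ z, qH x y (f z * z⁻¹) ∈ Γ) →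
      ∃ k : ℤ, f (dl 1) * (dl n ^ k * dl 1 * (dl n ^ k)⁻¹)⁻¹ ∈ U := by
  have hPfg : Group.FG P := surf_fg hP
  have hUn : U.Normal := inferInstance
  have hfinE : Finite (Fr n ⧸ U) := Subgroup.finite_quotient_of_finiteIndex
  let E : Type := Fr n ⧸ U
  let N : ℕ := Nat.card E
  have hN : NeZero N := ⟨Nat.card_pos.ne'⟩
  let B : Type := Equiv.Perm (ZMod N × Option E)
  have hfinB : Finite B := inferInstance
  let M : ℕ := Nat.card B
  have hM : NeZero M := ⟨Nat.card_pos.ne'⟩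
  have hML : NeZero (Nat.card B) := hM
  let L : Type := Equiv.Perm (ZMod (Nat.card B) × B)
  have hfinL : Finite L := inferInstance
  obtain ⟨VL, hVLc, hVLf, hVL⟩ := exists_deep (Fr n) L
  obtain ⟨ΓL, hΓLc, hΓLf, hΓL⟩ := exists_deep P L
  obtain ⟨VH, ΓH, hVHc, hVHf, hΓHc, hΓHf, hH⟩ := heis_exp (n := n) hP M
  have hU₂c : (U ⊓ VL ⊓ VH).Characteristic := inf_char (inf_char hU hVLc) hVHc
  have hU₂n : (U ⊓ VL ⊓ VH).Normal := inferInstance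
  have hU₂f : (U ⊓ VL ⊓ VH).FiniteIndex := inferInstance
  obtain ⟨V₁, hV₁c, hV₁f, -, hV₁⟩ := Fx2 1 one_pos (by omega : 1 < n) _ hU₂c hU₂f
  obtain ⟨V₂, hV₂c, hV₂f, -, hV₂⟩ := Fx2 2 two_pos (by omega : 2 < n) _ hU₂c hU₂f
  obtain ⟨ΓC, hΓCc, hΓCf, hC⟩ := CmA (by omega : 0 < n) h hP (V₁ ⊓ V₂) (inf_char hV₁c hV₂c)
    inferInstance
  refine ⟨ΓC ⊓ ΓL ⊓ ΓH, inf_char (inf_char hΓCc hΓLc) hΓHc, inferInstance, ?_⟩
  intro f hfc hfΓ
  have hfC := hC f hfc (fun z => (hfΓ z).1.1)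
  -- the three elements
  have hps1 : IsPS n 1 (MulAut.conj (dl 1 * (dl n)⁻¹) * Xh h (dl 1)) := isPS_Xh h (by omega)
  have hps2 : IsPS n 2 (MulAut.conj (dl 2 * (dl n)⁻¹) * Xh h (dl 2)) := isPS_Xh h (by omega)
  obtain ⟨f11, -, f13⟩ := hps1.fix (by omega)
  obtain ⟨f21, -, f23⟩ := hps2.fix (by omega)
  obtain ⟨w₁, hw₁⟩ := hV₁ _ hps1 (f (dl 1))
    (Cp1_fix f11 (hfC _ (Cp1_dl_comm 1 (by omega)) _ f13 _)).1
  obtain ⟨w₃, hw₃⟩ := hV₂ _ hps2 (f (dl 2))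
    (Cp1_fix f21 (hfC _ (Cp1_dl_comm 2 (by omega)) _ f23 _)).2
  let i1 : Fin n := ⟨1, by omega⟩
  obtain ⟨θ, hθc, hθs, hθ⟩ := exists_theta h (by omega : 1 < n)
  change θ (dl 1) = kk i1 at hθs
  change ∀ τ : MulAut (Fr n), IsPS n 1 τ →
        θ * τ * θ⁻¹ = MulAut.conj (kk i1 * (dl n)⁻¹) * Xh h (kk i1) at hθ
  have hw₂ : ∃ w₂, f (kk i1) * (ev (kk i1) (dl n) w₂)⁻¹ ∈
      U ⊓ VL ⊓ VH := by
    have e1 := hθ _ hps1
    have hθs' : θ⁻¹ (kk i1) = dl 1 := by rw [← hθs, MulAut.inv_apply_self]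
    have hθc' : θ⁻¹ (dl n) = dl n := inv_fix hθc
    have e2 : (MulAut.conj (kk i1 * (dl n)⁻¹) * Xh h (kk i1) : MulAut (Fr n)) (dl n) =
        dl n := by
      rw [← e1, MulAut.mul_apply, MulAut.mul_apply, hθc', f13, hθc]
    have e3 : (MulAut.conj (kk i1 * (dl n)⁻¹) * Xh h (kk i1) : MulAut (Fr n))
        (kk i1) = kk i1 := by
      rw [← e1, MulAut.mul_apply, MulAut.mul_apply, hθs', f11, hθs]
    have e4 := (Cp1_fix e3 (hfC _ (Cp1_kk_comm _) _ e2 _)).1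
    rw [← e1] at e4
    have e5 := apply_mem_of_char hV₁c θ⁻¹ e4
    rw [map_mul, map_inv, MulAut.mul_apply, MulAut.mul_apply, MulAut.inv_apply_self] at e5
    obtain ⟨w₂, hw⟩ := hV₁ _ hps1 _ e5
    refine ⟨w₂, ?_⟩
    have e6 := apply_mem_of_char hU₂c θ hw
    have e7 : θ (ev (dl 1) (dl n) w₂) = ev (kk i1) (dl n) w₂ := by
      have := ev_map θ.toMonoidHom (dl 1) (dl n) w₂
      change θ (ev (dl 1) (dl n) w₂) = ev (θ (dl 1)) (θ (dl n)) w₂ at this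
      rw [this, hθs, hθc]
    rwa [map_mul, map_inv, MulAut.apply_inv_self, e7] at e6
  obtain ⟨w₂, hw₂⟩ := hw₂
  have hdl2 : (dl 2 : Fr n) = dl 1 * kk i1 := dl_succ 1 (by omega)
  -- values of the words
  have val : ∀ (ρ : Fr n →* L) (s : Fr n) (w : FreeGroup (Fin 2)),
      f s * (ev s (dl n) w)⁻¹ ∈ U ⊓ VL ⊓ VH → ρ (f s) = ev (ρ s) (ρ (dl n)) w := by
    intro ρ s w hs
    have h1 := hVL ρ _ hs.1.2
    rw [map_mul, map_inv, mul_inv_eq_one, ev_map] at h1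
    exact h1
  have h3 : ∀ x y g : B, ev x g w₁ * ev y g w₂ = ev (x * y) g w₃ := by
    intro x y g
    obtain ⟨ρ, hx, hy, hg⟩ := real3 hn B x y g
    have v1 := val ρ _ _ hw₁
    have v2 := val ρ _ _ hw₂
    have v3 := val ρ _ _ hw₃
    rw [hx, hg, ← ev_map] at v1
    rw [hy, hg, ← ev_map] at v2
    rw [hdl2, map_mul, map_mul, map_mul, v1, v2, hx, hy, hg, ← map_mul (dia B) x y, ← ev_map,
      ← map_mul] at v3
    exact dia_injective B v3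
  have h1 : ∀ x : B, ev x 1 w₁ = x := by
    intro x
    obtain ⟨ρ, hx, -, hg⟩ := real3 hn B x 1 1
    have v1 := val ρ _ _ hw₁
    rw [hx, hg, ← ev_map] at v1
    rw [map_one] at hg
    obtain ⟨σ, hσ⟩ := qH_factor hP ρ hg
    have e1 := hΓL σ _ (hfΓ (dl 1)).1.2
    rw [hσ, map_mul, map_inv, mul_inv_eq_one, v1, hx] at e1
    exact dia_injective B e1
  have h11 : ∀ g : B, ev 1 g w₁ = 1 := by
    intro g
    refine hH f (fun z => (hfΓ z).2) ⟨0, by omega⟩ ⟨1, by omega⟩ (by simp) w₁ ?_ B g ?_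
    · rw [← Cp1_dl_one]
      exact hw₁.2
    · exact pow_card_eq_one'
  have h12 : ∀ g : B, ev 1 g w₂ = 1 := by
    intro g
    exact hH f (fun z => (hfΓ z).2) ⟨1, by omega⟩ ⟨0, by omega⟩ (by simp) w₂ hw₂.2 B g
      pow_card_eq_one'
  obtain ⟨k, hk⟩ := FE E N (fun x => pow_card_eq_one') w₁ w₂ w₃ h3 h1 h11 h12
  refine ⟨k, ?_⟩
  rw [Cp1_quot, Cp1_quot.mp hw₁.1.1, ev_map, hk]
  simp only [map_mul, map_inv, map_zpow]

end

end Pool.MP_59b15d_al.H73S
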