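import Mathlib
import Pool.Agent.H.MP_59b15d_al.h73e.Cp2
import Pool.Agent.H.MP_59b15d_al.h73s.Cp1A

set_option autoImplicit false

namespace Pool.MP_59b15d_al.H73S

open Pool.MP_59b15d_al.H24T Pool.MP_59b15d_al.H76R Pool.MP_59b15d_al.H73E Pool.MP_59b15d_al.H95
open Pool.MP_59b15d_al.H76 (InnMod congSub mem_congSub congSub_normal congSub_finiteIndex
  conj_innMod innMod_mono apply_mem_of_char exists_char_le comap_fi map_fi surf_fg inf_char
  finite_hom)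
open FreeGroup (of)

section

variable {n : ℕ} {G : Type*} [Group G] {a b : Fin (n + 1) → G} {P : Type*} [Group P]
  {x y : Fin n → P}

/-- The comparison theorem: automorphisms of the free group that are nearly trivial on the closed
surface group are nearly powers of the boundary twist. -/
theorem comparisonA (hn : 3 ≤ n) (h : IsSurf a b) (hP : IsSurf x y) (U : Subgroup (Fr n))
    (hU : U.Characteristic) (hf : U.FiniteIndex) :
    ∃ Γ : Subgroup P, Γ.Characteristic ∧ Γ.FiniteIndex ∧ ∀ f : MulAut (Fr n),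
      f (dl n) = dl n →
      (∀ z, qH x y (f z * z⁻¹) ∈ Γ) →
      ∃ k : ℤ, ∀ z, f z * (dl n ^ k * z * (dl n ^ k)⁻¹)⁻¹ ∈ U := by
  have hPfg : Group.FG P := surf_fg hP
  have hUn : U.Normal := inferInstance
  have hfinE : Finite (Fr n ⧸ U) := Subgroup.finite_quotient_of_finiteIndex
  let E : Type := Fr n ⧸ U
  let π : Fr n →* E := QuotientGroup.mk' U
  have hNE : NeZero (Nat.card E) := ⟨Nat.card_pos.ne'⟩
  let L : Type := Equiv.Perm (ZMod (Nat.card E) × E)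
  have hfinL : Finite L := inferInstance
  obtain ⟨VE, hVEc, hVEf, hVE⟩ := exists_deep (Fr n) E
  obtain ⟨ΓE, hΓEc, hΓEf, hΓE⟩ := exists_deep P E
  obtain ⟨VL, hVLc, hVLf, hVL⟩ := exists_deep (Fr n) L
  obtain ⟨ΓL, hΓLc, hΓLf, hΓL⟩ := exists_deep P L
  have hU₃c : (U ⊓ VE ⊓ VL).Characteristic := inf_char (inf_char hU hVEc) hVLc
  have hU₃f : (U ⊓ VE ⊓ VL).FiniteIndex := inferInstance
  obtain ⟨Va, hVac, hVaf, -, hVa⟩ := Fx3a (by omega : 1 < n) _ hU₃c hU₃f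
  obtain ⟨Vb, hVbc, hVbf, -, hVb⟩ := Fx3b (by omega : 1 < n) _ hU₃c hU₃f
  have hWc : (Va ⊓ Vb).Characteristic := inf_char hVac hVbc
  have hWf : (Va ⊓ Vb).FiniteIndex := inferInstance
  have hWn : (Va ⊓ Vb).Normal := inferInstance
  obtain ⟨Γ₁, hΓ₁c, hΓ₁f, hΓ₁⟩ := Cp1A hn h hP (Va ⊓ Vb) hWc hWf
  obtain ⟨Γ₂, hΓ₂c, hΓ₂f, hΓ₂⟩ := CmA (by omega : 0 < n) h hP (Va ⊓ Vb) hWc hWf
  refine ⟨Γ₁ ⊓ Γ₂ ⊓ ΓE ⊓ ΓL, inf_char (inf_char (inf_char hΓ₁c hΓ₂c) hΓEc) hΓLc,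
    inferInstance, ?_⟩
  intro f hfc hfΓ
  obtain ⟨k, hk⟩ := hΓ₁ f hfc (fun z => (hfΓ z).1.1.1)
  obtain ⟨τ, hps, hcomm⟩ : ∃ τ : MulAut (Fr n), IsPS n 1 τ ∧
      ∀ z, f (τ z) * (τ (f z))⁻¹ ∈ Va ⊓ Vb := by
    have hps : IsPS n 1 (MulAut.conj (dl 1 * (dl n)⁻¹) * Xh h (dl 1)) := isPS_Xh h (by omega)
    obtain ⟨-, -, p3⟩ := hps.fix (by omega)
    exact ⟨_, hps, hΓ₂ f hfc (fun z => (hfΓ z).1.1.2) _ (Cp1_dl_comm 1 (by omega)) _ p3⟩
  obtain ⟨p1, p2, p3⟩ := hps.fix (by omega)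
  let ω : Fr n →* Fr n ⧸ (Va ⊓ Vb) := QuotientGroup.mk' _
  have hω : ∀ u v : Fr n, u * v⁻¹ ∈ Va ⊓ Vb ↔ ω u = ω v := fun u v => Cp1_quot
  -- the corrected automorphism
  let f₁ : MulAut (Fr n) := MulAut.conj (dl n ^ k)⁻¹ * f
  have hf₁ : ∀ z, f₁ z = (dl n ^ k)⁻¹ * f z * dl n ^ k := by
    intro z
    change (dl n ^ k)⁻¹ * f z * (dl n ^ k)⁻¹⁻¹ = _
    rw [inv_inv]
  have g1 : ω (f₁ (dl 1)) = ω (dl 1) := by
    have := (hω _ _).mp hk
    rw [hf₁, map_mul, map_mul, this]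
    simp only [map_mul, map_inv]
    group
  have g2 : f₁ (dl n) = dl n := by
    rw [hf₁, hfc]
    group
  have g3 : ω (f₁ (zl n 1)) = ω (zl n 1) := by
    rw [zl, map_mul f₁, map_inv f₁, map_mul ω, map_inv ω, g1, g2, map_mul ω, map_inv ω]
  have hτk : τ (dl n ^ k) = dl n ^ k := by rw [map_zpow, p3]
  have g4 : ∀ z, ω (τ (f₁ z)) = ω (f₁ (τ z)) := by
    intro z
    have := (hω _ _).mp (hcomm z)
    rw [hf₁, hf₁, map_mul τ, map_mul τ, map_inv τ, hτk, map_mul ω, map_mul ω, ← this,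
      ← map_mul, ← map_mul]
  -- the two auxiliary automorphisms
  have kA : ∀ z ∈ FL n 1, ∃ y ∈ FL n 1, f₁ z * y⁻¹ ∈ U ⊓ VE ⊓ VL := by
    intro z hz
    let T : MulAut (Fr n) := MulAut.conj (dl 1)⁻¹ * τ
    have hT : ∀ u, T u = (dl 1)⁻¹ * τ u * dl 1 := by
      intro u
      change (dl 1)⁻¹ * τ u * (dl 1)⁻¹⁻¹ = _
      rw [inv_inv]
    refine hVa T ?_ ?_ (f₁ z) ?_
    · intro k hk
      have h1 := hps.1 k (by omega)
      rw [hT, hT, h1.1, h1.2]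
      constructor <;> group
    · intro k hk
      have h1 := hps.2 k hk
      rw [hT, hT, h1.1, h1.2]
      constructor <;> group
    · have h1 : ω (T (f₁ z)) = ω (f₁ z) := by
        rw [hT, map_mul ω, map_mul ω, g4, Cp2_FL hps hz,
          map_mul f₁, map_mul f₁, map_inv f₁, map_mul ω, map_mul ω, map_inv ω (f₁ (dl 1)), g1,
          map_inv ω]
        group
      exact ((hω _ _).mpr h1).1
  have kB : ∀ z ∈ FH n, ∃ y ∈ FH n, f₁ z * y⁻¹ ∈ U ⊓ VE ⊓ VL := by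
    intro z hz
    let T : MulAut (Fr n) := MulAut.conj (zl n 1) * τ
    have hT : ∀ u, T u = zl n 1 * τ u * (zl n 1)⁻¹ := fun u => rfl
    refine hVb T ?_ ?_ (f₁ z) ?_
    · intro k hk
      have h1 := hps.2 k hk
      rw [hT, hT, h1.1, h1.2]
      constructor <;> group
    · intro k hk
      have h1 := hps.1 k (by omega)
      rw [hT, hT, h1.1, h1.2]
      constructor <;> group
    · have h1 : ω (T (f₁ z)) = ω (f₁ z) := by
        rw [hT, map_mul ω, map_mul ω, g4, Cp2_FH hps hz,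
          map_mul f₁, map_mul f₁, map_inv f₁, map_mul ω, map_mul ω, map_inv ω (f₁ (zl n 1)), g3,
          map_inv ω]
        group
      exact ((hω _ _).mpr h1).2
  -- homomorphisms killing the boundary do not see the automorphism
  have hρ1 : ∀ (ρ : Fr n →* E), ρ (dl n) = 1 → ∀ z, ρ (f₁ z) = ρ z := by
    intro ρ hρ z
    obtain ⟨σ, hσ⟩ := qH_factor hP ρ hρ
    have e1 := hΓE σ _ (hfΓ z).1.2
    rw [hσ, map_mul, map_inv, mul_inv_eq_one] at e1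
    rw [hf₁, map_mul, map_mul, map_inv, map_zpow, hρ, e1]
    simp
  have hρ2 : ∀ (ρ : Fr n →* L), ρ (dl n) = 1 → ∀ z, ρ (f₁ z) = ρ z := by
    intro ρ hρ z
    obtain ⟨σ, hσ⟩ := qH_factor hP ρ hρ
    have e1 := hΓL σ _ (hfΓ z).2
    rw [hσ, map_mul, map_inv, mul_inv_eq_one] at e1
    rw [hf₁, map_mul, map_mul, map_inv, map_zpow, hρ, e1]
    simp
  have hA : ∀ z ∈ FL n 1, π (f₁ z) = π z := by
    intro z hz
    obtain ⟨y, hy, hyU⟩ := kA z hz
    obtain ⟨ρ, hρ, hρπ⟩ := real_K (by omega : 1 < n) π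
    have e1 := hVE ρ _ hyU.1.2
    rw [map_mul, map_inv, mul_inv_eq_one, hρ1 ρ hρ, hρπ z hz, hρπ y hy] at e1
    have e2 : π (f₁ z) = π y := Cp1_quot.mp hyU.1.1
    rw [e2, e1]
  have hB : ∀ z ∈ FH n, π (f₁ z) = π z := by
    intro z hz
    obtain ⟨y, hy, hyU⟩ := kB z hz
    obtain ⟨ρ, hρ, hρπ⟩ := real_K' (by omega : 0 < n) π
    have e1 := hVL ρ _ hyU.2
    rw [map_mul, map_inv, mul_inv_eq_one, hρ2 ρ hρ, hρπ z hz, hρπ y hy] at e1
    have e2 : π (f₁ z) = π y := Cp1_quot.mp hyU.1.1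
    rw [e2, dia_injective E e1]
  have hall : π.comp f₁.toMonoidHom = π := by
    ext i
    rcases i with i | i
    · by_cases hi : (i : ℕ) < 1
      · exact hA _ (a_FL hi)
      · exact hB _ (Subgroup.subset_closure ⟨i, by omega, Or.inl rfl⟩)
    · by_cases hi : (i : ℕ) < 1
      · exact hA _ (b_FL hi)
      · exact hB _ (Subgroup.subset_closure ⟨i, by omega, Or.inr rfl⟩)
  refine ⟨k, fun z => ?_⟩
  have e1 : π (f₁ z) = π z := DFunLike.congr_fun hall z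
  rw [hf₁] at e1
  rw [Cp1_quot]
  change π (f z) = π (dl n ^ k * z * (dl n ^ k)⁻¹)
  rw [map_mul, map_mul, ← e1]
  simp only [map_mul, map_inv]
  group

end

end Pool.MP_59b15d_al.H73S
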