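import Mathlib
import Pool.Agent.H.MP_59b15d_al.h73s.Cp2A

set_option autoImplicit false

namespace Pool.MP_59b15d_al.H73S

open Pool.MP_59b15d_al.H24T Pool.MP_59b15d_al.H76R Pool.MP_59b15d_al.H73E
open Pool.MP_59b15d_al.H76 (exists_char_le comap_fi map_fi inf_char)
open FreeGroup (of)

/-- The comparison theorem in terms of the free group: an automorphism of the free group fixing the
boundary which is nearly trivial on the closed surface group is nearly a power of the boundary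
twist. -/
theorem comparisonF {n : ℕ} (hn : 3 ≤ n) (U : Subgroup (Fr n)) (hU : U.Characteristic)
    (hf : U.FiniteIndex) :
    ∃ Γ : Subgroup (Fr n), Γ.Normal ∧ Γ.FiniteIndex ∧ dl n ∈ Γ ∧ ∀ f : MulAut (Fr n),
      f (dl n) = dl n → (∀ z, f z * z⁻¹ ∈ Γ) →
      ∃ k : ℤ, ∀ z, f z * (dl n ^ k * z * (dl n ^ k)⁻¹)⁻¹ ∈ U := by
  obtain ⟨a, b, h⟩ := exists_isSurf (g := n + 1) (G := SurfGroup (n + 1)) ⟨MulEquiv.refl _⟩
  obtain ⟨x, y, hP⟩ := exists_isSurf (g := n) (G := SurfGroup n) ⟨MulEquiv.refl _⟩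
  obtain ⟨Γ, hΓc, hΓf, hΓ⟩ := comparisonA hn h hP U hU hf
  have hΓn : Γ.Normal := inferInstance
  refine ⟨Γ.comap (qH x y), inferInstance, comap_fi _ hΓf, ?_, ?_⟩
  · rw [Subgroup.mem_comap, qH_dl hP]
    exact Γ.one_mem
  · intro f hfc hfz
    exact hΓ f hfc hfz

end Pool.MP_59b15d_al.H73S
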