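import Mathlib
import Pool.Agent.H.MP_59b15d_al.h73s.Cmp
import Pool.Agent.H.MP_59b15d_al.h76r.Sd

set_option autoImplicit false

namespace Pool.MP_59b15d_al.H73S

open Pool.MP_59b15d_al.H24T Pool.MP_59b15d_al.H76R Pool.MP_59b15d_al.H73E
open Pool.MP_59b15d_al.H76 (exists_char_le comap_fi map_fi inf_char)
open FreeGroup (of)

/-- The fundamental group of a surface of genus `m` with `s + 1` boundary components. -/
abbrev Gg (m s : ℕ) : Type := FreeGroup ((Fin m ⊕ Fin m) ⊕ Fin s)

/-- The last boundary component. -/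
def cW (m s : ℕ) : Gg m s :=
  (List.ofFn fun i : Fin m => of (Sum.inl (Sum.inl i)) * of (Sum.inl (Sum.inr i)) *
    (of (Sum.inl (Sum.inl i)))⁻¹ * (of (Sum.inl (Sum.inr i)))⁻¹).prod *
  (List.ofFn fun i : Fin s => of (Sum.inr i)).prod

section

variable {m s : ℕ}

open Classical in
/-- The number of elements of `J` below `k`. -/
noncomputable def cnt (J : Fin s → Prop) (k : ℕ) : ℕ :=
  (Finset.univ.filter fun i : Fin s => J i ∧ (i : ℕ) < k).card

theorem cnt_zero (J : Fin s → Prop) : cnt J 0 = 0 := by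
  simp [cnt]

theorem cnt_succ_pos (J : Fin s → Prop) (i : Fin s) (hi : J i) : cnt J (i + 1) = cnt J i + 1 := by
  classical
  rw [cnt, cnt, ← Finset.card_insert_of_notMem (a := i)]
  · congr 1
    ext j
    simp only [Finset.mem_filter, Finset.mem_univ, true_and, Finset.mem_insert]
    constructor
    · rintro ⟨h1, h2⟩
      by_cases h3 : j = i
      · exact Or.inl h3
      · right
        refine ⟨h1, ?_⟩
        have : (j : ℕ) ≠ i := fun h => h3 (Fin.ext h)
        omega
    · rintro (rfl | ⟨h1, h2⟩)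
      · exact ⟨hi, Nat.lt_succ_self _⟩
      · exact ⟨h1, by omega⟩
  · simp

theorem cnt_succ_neg (J : Fin s → Prop) (i : Fin s) (hi : ¬ J i) : cnt J (i + 1) = cnt J i := by
  classical
  rw [cnt, cnt]
  congr 1
  ext j
  simp only [Finset.mem_filter, Finset.mem_univ, true_and]
  constructor
  · rintro ⟨h1, h2⟩
    refine ⟨h1, ?_⟩
    have : (j : ℕ) ≠ i := fun h => hi (by rwa [← Fin.ext h])
    omega
  · rintro ⟨h1, h2⟩
    exact ⟨h1, by omega⟩

theorem cnt_mono (J : Fin s → Prop) {k l : ℕ} (h : k ≤ l) : cnt J k ≤ cnt J l := by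
  classical
  rw [cnt, cnt]
  apply Finset.card_le_card
  intro j
  simp only [Finset.mem_filter, Finset.mem_univ, true_and]
  rintro ⟨h1, h2⟩
  exact ⟨h1, by omega⟩

theorem cnt_lt (J : Fin s → Prop) (i : Fin s) (hi : J i) : cnt J i < cnt J s := by
  have h1 := cnt_succ_pos J i hi
  have h2 := cnt_mono J (Nat.succ_le_of_lt i.2)
  have h3 : cnt J (i + 1) ≤ cnt J s := h2
  omega

theorem cnt_inj (J : Fin s → Prop) {i j : Fin s} (hi : J i) (hj : J j)
    (h : cnt J i = cnt J j) : i = j := by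
  rcases lt_trichotomy i j with h1 | h1 | h1
  · exfalso
    have h2 := cnt_succ_pos J i hi
    have h3 : cnt J (i + 1) ≤ cnt J j := cnt_mono J (Nat.succ_le_of_lt h1)
    omega
  · exact h1
  · exfalso
    have h2 := cnt_succ_pos J j hj
    have h3 : cnt J (j + 1) ≤ cnt J i := cnt_mono J (Nat.succ_le_of_lt h1)
    omega

end

end Pool.MP_59b15d_al.H73S
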