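import Mathlib
import Pool.Agent.H.MP_59b15d_al.h73s.Glue
import Pool.Agent.H.MP_59b15d_al.h76r.Sd

set_option autoImplicit false

namespace Pool.MP_59b15d_al.H73S

open Pool.MP_59b15d_al.H24T Pool.MP_59b15d_al.H76R Pool.MP_59b15d_al.H73E
open Pool.MP_59b15d_al.H76 (exists_char_le comap_fi map_fi inf_char)
open FreeGroup (of)

section

/-- Telescoping product of a list. -/
theorem tele {T : Type*} [Group T] (k : ℕ) (g : Fin k → T) (u : ℕ → T)
    (h : ∀ i : Fin k, u i * g i = u (i + 1)) : u 0 * (List.ofFn g).prod = u k := by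
  induction k with
  | zero => simp
  | succ k ih =>
    rw [List.ofFn_succ', List.concat_eq_append, List.prod_append, ← mul_assoc,
      ih (fun i => g i.castSucc) (fun i => h i.castSucc)]
    have h1 := h (Fin.last k)
    simp only [Fin.val_last] at h1
    simpa using h1

variable {m s : ℕ} (J : Fin s → Prop) (n : ℕ)

open Classical in
/-- The images of the generators: the boundary components in `J` become boundaries of handles, the
others are filled in. -/
noncomputable def PhiF : (Fin m ⊕ Fin m) ⊕ Fin s → Fr n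
  | Sum.inl (Sum.inl i) => if h : (i : ℕ) < n then of (Sum.inl ⟨i, h⟩) else 1
  | Sum.inl (Sum.inr i) => if h : (i : ℕ) < n then of (Sum.inr ⟨i, h⟩) else 1
  | Sum.inr i => if J i then (if h : m + cnt J i < n then kk ⟨m + cnt J i, h⟩ else 1) else 1

/-- The homomorphism gluing handles. -/
noncomputable def Phi : Gg m s →* Fr n := FreeGroup.lift (PhiF J n)

variable {J n}

theorem Phi_a (hn : m + cnt J s = n) (i : Fin m) :
    Phi J n (of (Sum.inl (Sum.inl i))) = of (Sum.inl ⟨i, by omega⟩) := by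
  rw [Phi, FreeGroup.lift_apply_of, PhiF, dif_pos (by omega : (i : ℕ) < n)]

theorem Phi_b (hn : m + cnt J s = n) (i : Fin m) :
    Phi J n (of (Sum.inl (Sum.inr i))) = of (Sum.inr ⟨i, by omega⟩) := by
  rw [Phi, FreeGroup.lift_apply_of, PhiF, dif_pos (by omega : (i : ℕ) < n)]

theorem Phi_pos (hn : m + cnt J s = n) (i : Fin s) (hi : J i) :
    Phi J n (of (Sum.inr i) : Gg m s) =
      kk ⟨m + cnt J i, by have := cnt_lt J i hi; omega⟩ := by
  have h1 := cnt_lt J i hi
  rw [Phi, FreeGroup.lift_apply_of, PhiF, if_pos hi, dif_pos (by omega : m + cnt J i < n)]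

theorem Phi_neg (i : Fin s) (hi : ¬ J i) : Phi J n (of (Sum.inr i) : Gg m s) = 1 := by
  rw [Phi, FreeGroup.lift_apply_of, PhiF, if_neg hi]

theorem Phi_c (hn : m + cnt J s = n) : Phi J n (cW m s) = dl n := by
  have e1 : Phi J n (List.ofFn fun i : Fin m => (of (Sum.inl (Sum.inl i)) : Gg m s) *
      of (Sum.inl (Sum.inr i)) * (of (Sum.inl (Sum.inl i)))⁻¹ *
      (of (Sum.inl (Sum.inr i)))⁻¹).prod = dl m := by
    rw [map_list_prod, List.map_ofFn]
    have h1 := tele m (⇑(Phi J n) ∘ fun i : Fin m => (of (Sum.inl (Sum.inl i)) : Gg m s) *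
      of (Sum.inl (Sum.inr i)) * (of (Sum.inl (Sum.inl i)))⁻¹ *
      (of (Sum.inl (Sum.inr i)))⁻¹) (fun k => (dl k : Fr n)) (by
        intro i
        rw [dl_succ (i : ℕ) (by omega)]
        simp only [Function.comp_apply, map_mul, map_inv, Phi_a hn, Phi_b hn]
        rfl)
    simpa [dl] using h1
  have e2 : dl m * Phi J n (List.ofFn fun i : Fin s => (of (Sum.inr i) : Gg m s)).prod =
      dl n := by
    rw [map_list_prod, List.map_ofFn]
    have h1 := tele s (⇑(Phi J n) ∘ fun i : Fin s => (of (Sum.inr i) : Gg m s))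
      (fun k => (dl (m + cnt J k) : Fr n)) (by
        intro i
        by_cases hi : J i
        · have h2 := cnt_lt J i hi
          simp only [Function.comp_apply]
          rw [Phi_pos hn i hi, cnt_succ_pos J i hi, ← add_assoc,
            dl_succ (m + cnt J i) (by omega)]
        · simp only [Function.comp_apply]
          rw [Phi_neg i hi, cnt_succ_neg J i hi, mul_one])
    simp only [cnt_zero, add_zero, hn] at h1
    exact h1
  rw [cW, map_mul, e1, e2]

/-- The images of the generators under the induced automorphism. -/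
noncomputable def hatF (J : Fin s → Prop) (n : ℕ) (f : MulAut (Gg m s)) (W : Fin n → Fr n) :
    Fin n ⊕ Fin n → Fr n
  | Sum.inl k => if h : (k : ℕ) < m then Phi J n (f (of (Sum.inl (Sum.inl ⟨k, h⟩))))
      else W k * of (Sum.inl k) * (W k)⁻¹
  | Sum.inr k => if h : (k : ℕ) < m then Phi J n (f (of (Sum.inl (Sum.inr ⟨k, h⟩))))
      else W k * of (Sum.inr k) * (W k)⁻¹

/-- The induced endomorphism. -/
noncomputable def hat (J : Fin s → Prop) (n : ℕ) (f : MulAut (Gg m s)) (W : Fin n → Fr n) :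
    Fr n →* Fr n := FreeGroup.lift (hatF J n f W)

theorem hat_a_lt (f : MulAut (Gg m s)) (W : Fin n → Fr n) (k : Fin n) (h : (k : ℕ) < m) :
    hat J n f W (of (Sum.inl k)) = Phi J n (f (of (Sum.inl (Sum.inl ⟨k, h⟩)))) := by
  rw [hat, FreeGroup.lift_apply_of, hatF, dif_pos h]

theorem hat_b_lt (f : MulAut (Gg m s)) (W : Fin n → Fr n) (k : Fin n) (h : (k : ℕ) < m) :
    hat J n f W (of (Sum.inr k)) = Phi J n (f (of (Sum.inl (Sum.inr ⟨k, h⟩)))) := by
  rw [hat, FreeGroup.lift_apply_of, hatF, dif_pos h]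

theorem hat_a_ge (f : MulAut (Gg m s)) (W : Fin n → Fr n) (k : Fin n) (h : ¬ (k : ℕ) < m) :
    hat J n f W (of (Sum.inl k)) = W k * of (Sum.inl k) * (W k)⁻¹ := by
  rw [hat, FreeGroup.lift_apply_of, hatF, dif_neg h]

theorem hat_b_ge (f : MulAut (Gg m s)) (W : Fin n → Fr n) (k : Fin n) (h : ¬ (k : ℕ) < m) :
    hat J n f W (of (Sum.inr k)) = W k * of (Sum.inr k) * (W k)⁻¹ := by
  rw [hat, FreeGroup.lift_apply_of, hatF, dif_neg h]

/-- The conjugators of the new handles. -/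
noncomputable def Wf (J : Fin s → Prop) (n : ℕ) (w : Fin s → Gg m s) (k : Fin n) : Fr n :=
  open Classical in
  if h : ∃ j, J j ∧ m + cnt J j = k then Phi J n (w h.choose) else 1

theorem Wf_pos (w : Fin s → Gg m s) {k : Fin n} {j : Fin s} (hj : J j)
    (hk : m + cnt J j = k) : Wf J n w k = Phi J n (w j) := by
  have h : ∃ j, J j ∧ m + cnt J j = k := ⟨j, hj, hk⟩
  rw [Wf, dif_pos h]
  congr 2
  apply cnt_inj J h.choose_spec.1 hj
  have := h.choose_spec.2
  omega

theorem Wf_neg (w : Fin s → Gg m s) {k : Fin n} (h : ¬ ∃ j, J j ∧ m + cnt J j = k) :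
    Wf J n w k = 1 := by
  rw [Wf, dif_neg h]

theorem hat_Phi (hn : m + cnt J s = n) (f : MulAut (Gg m s)) (w : Fin s → Gg m s)
    (hw : ∀ i, f (of (Sum.inr i)) = w i * of (Sum.inr i) * (w i)⁻¹) (z : Gg m s) :
    hat J n f (Wf J n w) (Phi J n z) = Phi J n (f z) := by
  have h1 : (hat J n f (Wf J n w)).comp (Phi J n) = (Phi J n).comp f.toMonoidHom := by
    ext i
    rw [MonoidHom.comp_apply, MonoidHom.comp_apply]
    rcases i with (i | i) | i
    · rw [Phi_a hn, hat_a_lt f (Wf J n w) ⟨i, by omega⟩ i.2]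
      rfl
    · rw [Phi_b hn, hat_b_lt f (Wf J n w) ⟨i, by omega⟩ i.2]
      rfl
    · change _ = Phi J n (f (of (Sum.inr i)))
      rw [hw]
      by_cases hi : J i
      · have h2 := cnt_lt J i hi
        have h3 : ¬ m + cnt J i < m := by omega
        rw [map_mul, map_mul, Phi_pos hn i hi, kk, map_mul, map_mul, map_mul, map_inv, map_inv,
          hat_a_ge _ _ _ h3, hat_b_ge _ _ _ h3, Wf_pos w hi rfl, map_inv (Phi J n)]
        group
      · rw [map_mul, map_mul, Phi_neg i hi, map_one, map_inv]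
        group
  exact DFunLike.congr_fun h1 z

theorem hat_hat (hn : m + cnt J s = n) (f f' : MulAut (Gg m s)) (hff : ∀ z, f (f' z) = z)
    (w w' : Fin s → Gg m s) (hw : ∀ i, f (of (Sum.inr i)) = w i * of (Sum.inr i) * (w i)⁻¹)
    (hww : ∀ i, f (w' i) = (w i)⁻¹) :
    (hat J n f (Wf J n w)).comp (hat J n f' (Wf J n w')) = MonoidHom.id _ := by
  have key : ∀ k : Fin n, hat J n f (Wf J n w) (Wf J n w' k) * Wf J n w k = 1 := by
    intro k
    by_cases h : ∃ j, J j ∧ m + cnt J j = k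
    · obtain ⟨j, hj, hk⟩ := h
      rw [Wf_pos w hj hk, Wf_pos w' hj hk, hat_Phi hn f w hw, hww, map_inv, inv_mul_cancel]
    · rw [Wf_neg w h, Wf_neg w' h, map_one, mul_one]
  ext i
  rw [MonoidHom.comp_apply, MonoidHom.id_apply]
  rcases i with k | k
  · by_cases hk : (k : ℕ) < m
    · rw [hat_a_lt _ _ _ hk, hat_Phi hn f w hw, hff, Phi_a hn]
    · rw [hat_a_ge _ _ _ hk, map_mul, map_mul, map_inv, hat_a_ge _ _ _ hk]
      have h1 := key k
      rw [mul_eq_one_iff_eq_inv] at h1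
      rw [h1]
      group
  · by_cases hk : (k : ℕ) < m
    · rw [hat_b_lt _ _ _ hk, hat_Phi hn f w hw, hff, Phi_b hn]
    · rw [hat_b_ge _ _ _ hk, map_mul, map_mul, map_inv, hat_b_ge _ _ _ hk]
      have h1 := key k
      rw [mul_eq_one_iff_eq_inv] at h1
      rw [h1]
      group

/-- The induced automorphism. -/
theorem exists_hatAut (hn : m + cnt J s = n) (f : MulAut (Gg m s)) (w : Fin s → Gg m s)
    (hw : ∀ i, f (of (Sum.inr i)) = w i * of (Sum.inr i) * (w i)⁻¹) :
    ∃ F : MulAut (Fr n), ∀ z, F z = hat J n f (Wf J n w) z := by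
  let w' : Fin s → Gg m s := fun i => (f⁻¹ (w i))⁻¹
  have hw' : ∀ i, f⁻¹ (of (Sum.inr i)) = w' i * of (Sum.inr i) * (w' i)⁻¹ := by
    intro i
    have h1 := congrArg (⇑(f⁻¹)) (hw i)
    rw [MulAut.inv_apply_self, map_mul, map_mul, map_inv] at h1
    change _ = (f⁻¹ (w i))⁻¹ * _ * (f⁻¹ (w i))⁻¹⁻¹
    nth_rewrite 2 [h1]
    group
  have e1 := hat_hat hn f f⁻¹ (fun z => by simp) w w' hw (by
    intro i
    change f (f⁻¹ (w i))⁻¹ = _
    rw [map_inv, MulAut.apply_inv_self])
  have e2 := hat_hat hn f⁻¹ f (fun z => by simp) w' w hw' (by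
    intro i
    change f⁻¹ (w i) = (f⁻¹ (w i))⁻¹⁻¹
    rw [inv_inv])
  exact ⟨MonoidHom.toMulEquiv _ _ e2 e1, fun z => rfl⟩

/-- Finite quotients extend over the new handles. -/
theorem exists_ext (hn : m + cnt J s = n) {Q : Type} [Group Q] [Finite Q] (π : Gg m s →* Q)
    (hπ : ∀ i, ¬ J i → π (of (Sum.inr i)) = 1) :
    ∃ Pe : Fr n →* Equiv.Perm (ZMod (Nat.card Q) × Q), ∀ z, Pe (Phi J n z) = dia Q (π z) := by
  classical
  choose r t hrt using comm_dia Q
  let δ : Fin n → Q := fun k =>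
    if h : ∃ j, J j ∧ m + cnt J j = k then π (of (Sum.inr h.choose)) else 1
  have hδ : ∀ (k : Fin n) (j : Fin s), J j → m + cnt J j = k → δ k = π (of (Sum.inr j)) := by
    intro k j hj hk
    have h : ∃ j, J j ∧ m + cnt J j = k := ⟨j, hj, hk⟩
    change (if h : ∃ j, J j ∧ m + cnt J j = k then π (of (Sum.inr h.choose)) else 1) = _
    rw [dif_pos h]
    congr 3
    apply cnt_inj J h.choose_spec.1 hj
    have := h.choose_spec.2
    omega
  let fa : Fin n → Equiv.Perm (ZMod (Nat.card Q) × Q) := fun k =>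
    if h : (k : ℕ) < m then dia Q (π (of (Sum.inl (Sum.inl ⟨k, h⟩)))) else r (δ k)
  let fb : Fin n → Equiv.Perm (ZMod (Nat.card Q) × Q) := fun k =>
    if h : (k : ℕ) < m then dia Q (π (of (Sum.inl (Sum.inr ⟨k, h⟩)))) else t (δ k)
  let Pe : Fr n →* Equiv.Perm (ZMod (Nat.card Q) × Q) := FreeGroup.lift (Sum.elim fa fb)
  have hPa : ∀ k, Pe (of (Sum.inl k)) = fa k := fun k => by simp [Pe]
  have hPb : ∀ k, Pe (of (Sum.inr k)) = fb k := fun k => by simp [Pe]
  refine ⟨Pe, fun z => ?_⟩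
  have h1 : Pe.comp (Phi J n) = (dia Q).comp π := by
    ext1 i
    rw [MonoidHom.comp_apply, MonoidHom.comp_apply]
    rcases i with (i | i) | i
    · rw [Phi_a hn, hPa]
      change (if h : (i : ℕ) < m then dia Q (π (of (Sum.inl (Sum.inl ⟨i, h⟩)))) else r (δ _)) = _
      rw [dif_pos i.2]
    · rw [Phi_b hn, hPb]
      change (if h : (i : ℕ) < m then dia Q (π (of (Sum.inl (Sum.inr ⟨i, h⟩)))) else t (δ _)) = _
      rw [dif_pos i.2]
    · by_cases hi : J i
      · have h2 := cnt_lt J i hi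
        have h3 : ¬ m + cnt J i < m := by omega
        rw [Phi_pos hn i hi, kk, map_mul, map_mul, map_mul, map_inv, map_inv, hPa, hPb]
        have ea : fa ⟨m + cnt J i, by omega⟩ = r (π (of (Sum.inr i))) := by
          change (if h : m + cnt J i < m then _ else r (δ _)) = _
          rw [dif_neg h3, hδ _ i hi rfl]
        have eb : fb ⟨m + cnt J i, by omega⟩ = t (π (of (Sum.inr i))) := by
          change (if h : m + cnt J i < m then _ else t (δ _)) = _
          rw [dif_neg h3, hδ _ i hi rfl]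
        rw [ea, eb, hrt]
      · rw [Phi_neg i hi, map_one, hπ i hi, map_one]
  exact DFunLike.congr_fun h1 z

/-- GLUE: the comparison theorem for surfaces with several punctures. The boundary components
outside `J` are filled in, the others are replaced by handles. -/
theorem glue (J : Fin s → Prop) (h3 : 3 ≤ m + cnt J s) (U : Subgroup (Gg m s)) (hU : U.Normal)
    (hf : U.FiniteIndex) (hK : ∀ i, ¬ J i → of (Sum.inr i) ∈ U) :
    ∃ Γ : Subgroup (Gg m s), Γ.Normal ∧ Γ.FiniteIndex ∧ cW m s ∈ Γ ∧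
      (∀ i, ¬ J i → of (Sum.inr i) ∈ Γ) ∧
      ∀ (f : MulAut (Gg m s)) (w : Fin s → Gg m s), f (cW m s) = cW m s →
        (∀ i, f (of (Sum.inr i)) = w i * of (Sum.inr i) * (w i)⁻¹) → (∀ i, J i → w i ∈ Γ) →
        (∀ z, f z * z⁻¹ ∈ Γ) →
        ∃ k : ℤ, ∀ z, f z * (cW m s ^ k * z * (cW m s ^ k)⁻¹)⁻¹ ∈ U := by
  obtain ⟨n, hn⟩ : ∃ n, m + cnt J s = n := ⟨_, rfl⟩
  rw [hn] at h3
  have hQf : Finite (Gg m s ⧸ U) := Subgroup.finite_quotient_of_finiteIndex
  let π : Gg m s →* Gg m s ⧸ U := QuotientGroup.mk' U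
  have hπ : ∀ z, π z = 1 ↔ z ∈ U := fun z => QuotientGroup.eq_one_iff z
  obtain ⟨Pe, hPe⟩ := exists_ext hn π (fun i hi => (hπ _).mpr (hK i hi))
  have hNZ : NeZero (Nat.card (Gg m s ⧸ U)) := ⟨Nat.card_pos.ne'⟩
  have hkf : Pe.ker.FiniteIndex := Subgroup.finiteIndex_ker Pe
  obtain ⟨U', hU'c, hU'f, hU'⟩ := exists_char_le Pe.ker hkf
  have hback : ∀ z : Gg m s, Phi J n z ∈ U' → z ∈ U := by
    intro z hz
    have h1 := hU' hz
    rw [MonoidHom.mem_ker, hPe] at h1
    rw [← hπ]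
    apply dia_injective
    rw [h1, map_one]
  obtain ⟨Γ', hΓn, hΓf, hΓd, hΓ⟩ := comparisonF h3 U' hU'c hU'f
  refine ⟨Γ'.comap (Phi J n), inferInstance, comap_fi _ hΓf, ?_, ?_, ?_⟩
  · rw [Subgroup.mem_comap, Phi_c hn]
    exact hΓd
  · intro i hi
    rw [Subgroup.mem_comap, Phi_neg i hi]
    exact Γ'.one_mem
  · intro f w hfc hw hwJ hfz
    obtain ⟨F, hF⟩ := exists_hatAut hn f w hw
    have hFP : ∀ z, F (Phi J n z) = Phi J n (f z) := by
      intro z
      rw [hF, hat_Phi hn f w hw]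
    have hFc : F (dl n) = dl n := by
      rw [← Phi_c hn, hFP, hfc]
    let ω : Fr n →* Fr n ⧸ Γ' := QuotientGroup.mk' Γ'
    have hω : ∀ u v : Fr n, u * v⁻¹ ∈ Γ' ↔ ω u = ω v := fun u v => Cp1_quot
    have hW : ∀ k : Fin n, ω (Wf J n w k) = 1 := by
      intro k
      by_cases h : ∃ j, J j ∧ m + cnt J j = k
      · obtain ⟨j, hj, hk⟩ := h
        rw [Wf_pos w hj hk]
        exact (QuotientGroup.eq_one_iff _).mpr (hwJ j hj)
      · rw [Wf_neg w h, map_one]
    have hlt : ∀ z : Gg m s, ω (Phi J n (f z)) = ω (Phi J n z) := by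
      intro z
      rw [← hω, ← map_inv, ← map_mul]
      exact hfz z
    have hFid : ω.comp F.toMonoidHom = ω := by
      ext1 i
      rw [MonoidHom.comp_apply]
      change ω (F (of i)) = ω (of i)
      rw [hF]
      rcases i with k | k
      · by_cases hk : (k : ℕ) < m
        · rw [hat_a_lt _ _ _ hk, hlt, Phi_a hn]
        · rw [hat_a_ge _ _ _ hk, map_mul, map_mul, map_inv, hW]
          simp
      · by_cases hk : (k : ℕ) < m
        · rw [hat_b_lt _ _ _ hk, hlt, Phi_b hn]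
        · rw [hat_b_ge _ _ _ hk, map_mul, map_mul, map_inv, hW]
          simp
    obtain ⟨k, hk⟩ := hΓ F hFc (fun z => (hω _ _).mpr (DFunLike.congr_fun hFid z))
    refine ⟨k, fun z => hback _ ?_⟩
    have h1 := hk (Phi J n z)
    rw [hFP, ← Phi_c hn, ← map_zpow, ← map_inv, ← map_mul, ← map_mul, ← map_inv, ← map_mul] at h1
    exact h1

end

end Pool.MP_59b15d_al.H73S
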