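import Mathlib

set_option autoImplicit false

namespace Pool.MP_59b15d_al.Art

open FreeGroup

variable {α : Type} [DecidableEq α]

/-- the part of the long word after the first conjugator -/
def wd (w : FreeGroup α) (i : α) : List (FreeGroup α × α) → List (α × Bool)
  | [] => (i, true) :: invRev w.toWord
  | p :: L => (i, true) :: ((w⁻¹ * p.1).toWord ++ wd p.1 p.2 L)

/-- the conjugator does not end in the letter -/
def Gd (w : FreeGroup α) (i : α) : Prop := ∀ b, (i, b) ∉ w.toWord.getLast?

/-- neighbours -/
def Nb (w : FreeGroup α) (i : α) (w' : FreeGroup α) (i' : α) : Prop :=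
  (i, false) ∉ (w⁻¹ * w').toWord.head? ∧ (i', false) ∉ (w⁻¹ * w').toWord.getLast?

/-- all conditions along a list -/
def Ok (w : FreeGroup α) (i : α) : List (FreeGroup α × α) → Prop
  | [] => Gd w i
  | p :: L => Nb w i p.1 p.2 ∧ Ok p.1 p.2 L

theorem wd_mk (L : List (FreeGroup α × α)) : ∀ (w : FreeGroup α) (i : α),
    w * FreeGroup.mk (wd w i L) =
      w * FreeGroup.of i * w⁻¹ * (L.map fun p => p.1 * FreeGroup.of p.2 * p.1⁻¹).prod := by
  induction L with
  | nil =>
    intro w i
    have h : FreeGroup.mk (wd w i []) = FreeGroup.of i * w⁻¹ := by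
      change FreeGroup.mk ([(i, true)] ++ invRev w.toWord) = _
      rw [← FreeGroup.mul_mk, ← FreeGroup.toWord_inv, FreeGroup.mk_toWord]
      rfl
    rw [h]
    simp [mul_assoc]
  | cons p L ih =>
    intro w i
    have h : FreeGroup.mk (wd w i (p :: L)) =
        FreeGroup.of i * ((w⁻¹ * p.1) * FreeGroup.mk (wd p.1 p.2 L)) := by
      change FreeGroup.mk ([(i, true)] ++ ((w⁻¹ * p.1).toWord ++ wd p.1 p.2 L)) = _
      rw [← FreeGroup.mul_mk, ← FreeGroup.mul_mk, FreeGroup.mk_toWord]
      rfl
    rw [h, List.map_cons, List.prod_cons, mul_assoc w⁻¹, ih]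
    group

theorem wd_head (w : FreeGroup α) (i : α) (L : List (FreeGroup α × α)) :
    ∃ T, wd w i L = (i, true) :: T := by
  cases L with
  | nil => exact ⟨_, rfl⟩
  | cons p L => exact ⟨_, rfl⟩

omit [DecidableEq α] in
theorem head_invRev (l : List (α × Bool)) (x : α × Bool) (h : x ∈ (invRev l).head?) :
    (x.1, !x.2) ∈ l.getLast? := by
  rw [invRev, List.head?_reverse, List.getLast?_map] at h
  rw [Option.mem_def] at h ⊢
  rcases h1 : l.getLast? with _ | y
  · rw [h1] at h; simp at h
  · rw [h1] at h
    simp only [Option.map_some, Option.some.injEq] at h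
    rw [← h]
    simp

theorem wd_red (L : List (FreeGroup α × α)) : ∀ (w : FreeGroup α) (i : α), Ok w i L →
    FreeGroup.IsReduced (wd w i L) := by
  induction L with
  | nil =>
    intro w i h
    have h' : Gd w i := h
    change List.IsChain _ ((i, true) :: invRev w.toWord)
    rw [List.isChain_cons]
    refine ⟨?_, ?_⟩
    · intro y hy e
      have h2 := head_invRev _ _ hy
      exfalso
      refine h' (!y.2) ?_
      have e1 : i = y.1 := e
      rw [e1]
      exact h2
    · rw [← FreeGroup.toWord_inv]
      exact FreeGroup.isReduced_toWord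
  | cons p L ih =>
    intro w i h
    have h' : Nb w i p.1 p.2 ∧ Ok p.1 p.2 L := h
    change List.IsChain _ ((i, true) :: ((w⁻¹ * p.1).toWord ++ wd p.1 p.2 L))
    obtain ⟨T, hT⟩ := wd_head p.1 p.2 L
    rw [List.isChain_cons]
    refine ⟨?_, ?_⟩
    · intro y hy e
      have e1 : i = y.1 := e
      by_contra hne
      have hy2 : y = (i, false) := by
        refine Prod.ext e1.symm ?_
        simpa using (fun h0 : true = y.2 => hne h0)
      rw [hT] at hy
      rcases h1 : (w⁻¹ * p.1).toWord with _ | ⟨a, l⟩
      · rw [h1] at hy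
        simp only [List.nil_append, List.head?_cons, Option.mem_def, Option.some.injEq] at hy
        rw [← hy] at hy2
        simp at hy2
      · apply h'.1.1
        rw [h1] at hy ⊢
        simp only [List.cons_append, List.head?_cons, Option.mem_def, Option.some.injEq] at hy ⊢
        rw [hy, hy2]
    · rw [List.isChain_append]
      refine ⟨FreeGroup.isReduced_toWord, ih _ _ h'.2, ?_⟩
      intro x hx y hy e
      rw [hT] at hy
      simp only [List.head?_cons, Option.mem_def, Option.some.injEq] at hy
      subst hy
      by_contra hne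
      have hx2 : x = (p.2, false) := by
        refine Prod.ext e ?_
        simpa using hne
      rw [hx2] at hx
      exact h'.1.2 hx

theorem wd_len (L : List (FreeGroup α × α)) : ∀ (w : FreeGroup α) (i : α),
    L.length + 1 ≤ (wd w i L).length := by
  induction L with
  | nil => intro w i; simp [wd]
  | cons p L ih =>
    intro w i
    have := ih p.1 p.2
    simp only [wd, List.length_cons, List.length_append]
    omega

theorem wd_fin (L : List (FreeGroup α × α)) : ∀ (w : FreeGroup α) (i : α) (t : List α),
    t.length = L.length + 1 → w.toWord ++ wd w i L = t.map (fun a => (a, true)) →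
    (w, i) :: L = t.map (fun a => (1, a)) := by
  induction L with
  | nil =>
    intro w i t ht h
    obtain ⟨a, rfl⟩ : ∃ a, t = [a] := List.length_eq_one_iff.mp ht
    have h1 := congrArg List.length h
    simp only [List.length_append, wd, List.length_cons, List.map_cons, List.map_nil,
      List.length_nil] at h1
    have hw : w = 1 := FreeGroup.toWord_eq_nil_iff.mp (List.length_eq_zero_iff.mp (by omega))
    subst hw
    simpa [wd] using h
  | cons p L ih =>
    intro w i t ht h
    rcases t with _ | ⟨a, t⟩
    · simp at ht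
    · have h1 := congrArg List.length h
      have h2 := wd_len L p.1 p.2
      simp only [List.length_append, wd, List.length_cons, List.length_map] at h1 ht
      have hw : w = 1 := FreeGroup.toWord_eq_nil_iff.mp (List.length_eq_zero_iff.mp (by omega))
      have hp : w⁻¹ * p.1 = 1 :=
        FreeGroup.toWord_eq_nil_iff.mp (List.length_eq_zero_iff.mp (by omega))
      subst hw
      have hp1 : p.1 = 1 := by simpa using hp
      obtain ⟨q, j⟩ := p
      simp only at hp1
      subst hp1
      simp only [FreeGroup.toWord_one, List.nil_append, wd, inv_one, mul_one, List.map_cons,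
        List.cons.injEq, Prod.mk.injEq, and_true] at h
      have := ih 1 j t (by simpa using ht) (by simpa using h.2)
      rw [this, List.map_cons, h.1]

/-- the reduced case -/
theorem red_case (L : List (FreeGroup α × α)) (w : FreeGroup α) (i : α) (t : List α)
    (ht : t.length = L.length + 1) (hg : Gd w i) (hok : Ok w i L)
    (hp : w * FreeGroup.of i * w⁻¹ * (L.map fun p => p.1 * FreeGroup.of p.2 * p.1⁻¹).prod =
      (t.map fun a => FreeGroup.of a).prod) : (w, i) :: L = t.map (fun a => (1, a)) := by
  refine wd_fin L w i t ht ?_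
  have h1 : FreeGroup.IsReduced (w.toWord ++ wd w i L) := by
    obtain ⟨T, hT⟩ := wd_head w i L
    change List.IsChain _ _
    rw [List.isChain_append]
    refine ⟨FreeGroup.isReduced_toWord, wd_red L w i hok, ?_⟩
    intro x hx y hy e
    rw [hT] at hy
    simp only [List.head?_cons, Option.mem_def, Option.some.injEq] at hy
    subst hy
    exfalso
    apply hg x.2
    have : x = (i, x.2) := Prod.ext e rfl
    rw [← this]
    exact hx
  have h2 : FreeGroup.IsReduced (t.map (fun a => (a, true))) := by
    change List.IsChain _ _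
    clear hp ht
    induction t with
    | nil => simp
    | cons a t ih =>
      rw [List.map_cons, List.isChain_cons]
      refine ⟨?_, ih⟩
      intro y hy _
      rcases t with _ | ⟨b, t⟩
      · simp at hy
      · simp only [List.map_cons, List.head?_cons, Option.mem_def, Option.some.injEq] at hy
        rw [← hy]
  have h3 : FreeGroup.mk (w.toWord ++ wd w i L) = FreeGroup.mk (t.map (fun a => (a, true))) := by
    rw [← FreeGroup.mul_mk, FreeGroup.mk_toWord, wd_mk, hp]
    clear hp ht h2
    induction t with
    | nil => rfl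
    | cons a t ih =>
      rw [List.map_cons, List.prod_cons, ih, List.map_cons]
      rfl
  have h4 := FreeGroup.reduce.sound h3
  rwa [h1.reduce_eq, h2.reduce_eq] at h4

/-- no cancellation: if `w` does not end in `i`, and `w⁻¹ * v` starts with `(i, b)`, then `v` is
longer -/
theorem norm_add (w v : FreeGroup α) (i : α) (b : Bool) (hg : Gd w i)
    (h : (i, b) ∈ (w⁻¹ * v).toWord.head?) : v.norm = w.norm + (w⁻¹ * v).norm := by
  have h1 : FreeGroup.IsReduced (w.toWord ++ (w⁻¹ * v).toWord) := by
    change List.IsChain _ _
    rw [List.isChain_append]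
    refine ⟨FreeGroup.isReduced_toWord, FreeGroup.isReduced_toWord, ?_⟩
    intro x hx y hy e
    have hy2 : y = (i, b) := by
      rw [Option.mem_def] at hy h
      rw [h] at hy
      exact (Option.some.inj hy).symm
    exfalso
    apply hg x.2
    have e2 : x.1 = i := by rw [e, hy2]
    have : x = (i, x.2) := Prod.ext e2 rfl
    rw [← this]
    exact hx
  have h2 : v = FreeGroup.mk (w.toWord ++ (w⁻¹ * v).toWord) := by
    rw [← FreeGroup.mul_mk, FreeGroup.mk_toWord, FreeGroup.mk_toWord, mul_inv_cancel_left]
  have h3 : v.toWord = w.toWord ++ (w⁻¹ * v).toWord := by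
    conv_lhs => rw [h2]
    rw [FreeGroup.toWord_mk, h1.reduce_eq]
  unfold FreeGroup.norm
  rw [h3, List.length_append]

/-- removing a first letter -/
theorem norm_head (r : FreeGroup α) (i : α) (h : (i, false) ∈ r.toWord.head?) :
    (FreeGroup.of i * r).norm + 1 ≤ r.norm := by
  rcases h1 : r.toWord with _ | ⟨a, l⟩
  · rw [h1] at h; simp at h
  · rw [h1] at h
    simp only [List.head?_cons, Option.mem_def, Option.some.injEq] at h
    have h2 : FreeGroup.of i * r = FreeGroup.mk l := by
      conv_lhs => rw [← FreeGroup.mk_toWord (x := r), h1, h]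
      change FreeGroup.mk ([(i, true)] ++ (i, false) :: l) = _
      apply FreeGroup.Red.exact.mpr
      refine ⟨l, ?_, Relation.ReflTransGen.refl⟩
      exact FreeGroup.Red.Step.to_red (by simpa using FreeGroup.Red.Step.not (L₁ := []) (L₂ := l) (x := i) (b := true))
    rw [h2]
    have h3 : (FreeGroup.mk l).norm ≤ l.length := FreeGroup.norm_mk_le
    have h4 : r.norm = l.length + 1 := by
      unfold FreeGroup.norm
      rw [h1]; rfl
    omega

/-- removing a first letter `x` -/
theorem norm_head' (r : FreeGroup α) (i : α) (h : (i, true) ∈ r.toWord.head?) :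
    ((FreeGroup.of i)⁻¹ * r).norm + 1 ≤ r.norm := by
  rcases h1 : r.toWord with _ | ⟨a, l⟩
  · rw [h1] at h; simp at h
  · rw [h1] at h
    simp only [List.head?_cons, Option.mem_def, Option.some.injEq] at h
    have h2 : (FreeGroup.of i)⁻¹ * r = FreeGroup.mk l := by
      conv_lhs => rw [← FreeGroup.mk_toWord (x := r), h1, h]
      change FreeGroup.mk ([(i, false)] ++ (i, true) :: l) = _
      apply FreeGroup.Red.exact.mpr
      refine ⟨l, ?_, Relation.ReflTransGen.refl⟩
      exact FreeGroup.Red.Step.to_red (by simpa using FreeGroup.Red.Step.not (L₁ := []) (L₂ := l) (x := i) (b := false))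
    rw [h2]
    have h3 : (FreeGroup.mk l).norm ≤ l.length := FreeGroup.norm_mk_le
    have h4 : r.norm = l.length + 1 := by
      unfold FreeGroup.norm
      rw [h1]; rfl
    omega

/-- the last letter of the inverse -/
theorem last_inv (r : FreeGroup α) (i : α) (b : Bool) (h : (i, b) ∈ r.toWord.getLast?) :
    (i, !b) ∈ r⁻¹.toWord.head? := by
  rw [FreeGroup.toWord_inv, invRev, List.head?_reverse, List.getLast?_map]
  rw [Option.mem_def] at h ⊢
  rw [h]
  simp

/-- a conjugator that ends in the letter can be shortened -/
theorem not_Gd (w : FreeGroup α) (i : α) (h : ¬ Gd w i) : ∃ v : FreeGroup α,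
    v * FreeGroup.of i * v⁻¹ = w * FreeGroup.of i * w⁻¹ ∧ v.norm < w.norm := by
  unfold Gd at h
  push Not at h
  obtain ⟨b, hb⟩ := h
  have h1 := last_inv w i b hb
  cases b with
  | false =>
    refine ⟨w * FreeGroup.of i, by group, ?_⟩
    have h2 := norm_head' w⁻¹ i h1
    have h3 : (w * FreeGroup.of i).norm = ((FreeGroup.of i)⁻¹ * w⁻¹).norm := by
      rw [← mul_inv_rev, FreeGroup.norm_inv_eq]
    rw [FreeGroup.norm_inv_eq] at h2
    omega
  | true =>
    refine ⟨w * (FreeGroup.of i)⁻¹, by group, ?_⟩
    have h2 := norm_head w⁻¹ i h1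
    have h3 : (w * (FreeGroup.of i)⁻¹).norm = (FreeGroup.of i * w⁻¹).norm := by
      rw [← FreeGroup.norm_inv_eq (x := w * (FreeGroup.of i)⁻¹)]
      congr 1
      group
    rw [FreeGroup.norm_inv_eq] at h2
    omega

end Pool.MP_59b15d_al.Art
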